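import Pool.Agent.H140.PM.Conv
import Pool.Agent.H140.PM.Ex

set_option autoImplicit false

namespace Pool.Agent.Results.MP_ca7516_co.ForcedConvexVertex

open Pool.Agent.H140.PM

/-- There is a combinatorial type of polyhedral manifold (a map `F` with `n` vertices on a closed
connected orientable surface, of Euler characteristic `0`, i.e. a torus, which is realized by a
polyhedral manifold in Euclidean 3-space) with a vertex `v` of valence `4` which is convex in every
realization of the type.  (Here `n = 17`, and there are thirteen faces.) -/
theorem result : ∃ (n : ℕ) (F : List (List (Fin n))), IsSurfaceMap F ∧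
    (Fintype.card (Fin n) : ℤ) - ((allEdges F).length / 2 : ℕ) + F.length = 0 ∧
    (∃ φ : Fin n → E3, Realizes F φ) ∧
    ∃ v : Fin n, 4 ≤ valence F v ∧ ∀ φ : Fin n → E3, Realizes F φ → ConvexVertex F φ v :=
  ⟨17, Torus.F, Torus.isSurfaceMap, Torus.euler, ⟨Torus.φ0, Torus.realizes⟩, 0,
    Torus.valence0.ge, fun _ h => Torus.convexVertex h⟩

end Pool.Agent.Results.MP_ca7516_co.ForcedConvexVertex
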